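import Pool.Agent.QUD.StmtsU

/-!
# Squad QUD (MP_5b0138_an), row DEC: the items of type A as pairs of exterior angles
-/

set_option autoImplicit false

namespace Pool.Agent.QUD.H36

open MeasureTheory Filter Topology Real Set Pool.Agent.AEU Pool.Agent.AEU.H12 Pool.Agent.XQ
  Pool.Agent.XQ.U

theorem dec : DecStmt := by
  intro L l
  induction l with
  | nil =>
    intro _
    exact ⟨[], by simp, by simp [SumA], by simp [SumA, gsum], by simp, by simp⟩
  | cons p l ih =>
    intro h
    obtain ⟨AP, h1, h2, h3, h4, h5⟩ := ih (fun q hq => h q (List.mem_cons_of_mem _ hq))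
    have hp := h p List.mem_cons_self
    by_cases ho : obt p
    · have hg : ∀ κ, gE L p.1 p.2 κ = germA (L / 2) (π - p.1) (π - p.2) κ := by
        intro κ
        unfold gE
        rw [if_neg (not_lt.2 ho.1.le), if_neg (not_lt.2 ho.2.le), if_neg ho.1.ne', if_neg ho.2.ne']
      have hS : ∀ κ, SumA L ((π - p.1, π - p.2) :: AP) κ =
          germA (L / 2) (π - p.1) (π - p.2) κ + SumA L AP κ := by
        intro κ
        simp [SumA]
      have hb : bb (π - p.1, π - p.2) = (π / p.1, π / p.2) := by
        simp [bb]
      refine ⟨(π - p.1, π - p.2) :: AP, ?_, ?_, ?_, ?_, ?_⟩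
      · intro q hq
        rcases List.mem_cons.1 hq with rfl | hq
        · obtain ⟨k1, k2, k3, k4, k5⟩ := hp
          obtain ⟨o1, o2⟩ := ho
          exact ⟨by simp only; linarith, by simp only; linarith, by simp only; linarith,
            by simp only; linarith⟩
        · exact h1 q hq
      · intro κ
        rw [List.map_cons, List.sum_cons, h2, hS, gAp, if_pos ho, hg]
      · intro κ
        have := h3 κ
        rw [gsum] at this ⊢
        rw [List.map_cons, List.sum_cons, List.map_cons, List.sum_cons, this, hS, hg,
          show gBp L κ p = 0 from if_pos ho]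
        ring
      · rw [List.map_cons, List.sum_cons, List.map_cons, List.sum_cons, h4, hb,
          show cA p = FA (π / p.1) * FA (π / p.2) from if_pos ho]
      · intro z
        rw [List.map_cons, List.sum_cons, List.map_cons, List.sum_cons, h5, hb,
          show dA z p = DR (π / p.1) (π / p.2) z from if_pos ho]
    · refine ⟨AP, h1, ?_, ?_, ?_, ?_⟩
      · intro κ
        rw [List.map_cons, List.sum_cons, h2, show gAp L κ p = 0 from if_neg ho, zero_add]
      · intro κ
        have := h3 κ
        rw [gsum] at this ⊢
        rw [List.map_cons, List.sum_cons, List.map_cons, List.sum_cons, this,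
          show gBp L κ p = gE L p.1 p.2 κ from if_neg ho]
        ring
      · rw [List.map_cons, List.sum_cons, h4, show cA p = 0 from if_neg ho, zero_add]
      · intro z
        rw [List.map_cons, List.sum_cons, h5, show dA z p = 0 from if_neg ho, zero_add]

end Pool.Agent.QUD.H36
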