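import Pool.Agent.QUD.StmtsR

/-!
# Squad QUD (MP_5b0138_an), row WNF: normal form of a convex quadrilateral with respect to one side
-/

set_option autoImplicit false

namespace Pool.Agent.QUD.H36

open MeasureTheory Complex Pool.Agent.H16Iso
open Pool.Agent.H1Gen (det CCW poly)
open Pool.Agent.QUD

theorem conj_mul_eq (z w : ℂ) : (starRingEnd ℂ) z * w = (sp z w : ℂ) + (det z w : ℂ) * I := by
  apply Complex.ext
  · simp [sp]
  · simp [det]; ring

/-- a vector from its scalar product and determinant with another one -/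
theorem vec_eq (z w : ℂ) (l m t : ℝ) (hl : 0 < l) (hz : ‖z‖ = l)
    (h1 : sp z w = l * m * Real.cos t) (h2 : det z w = l * m * Real.sin t) :
    w = z * ((m : ℂ) / l) * exp (t * I) := by
  have hl' : (l : ℂ) ≠ 0 := by exact_mod_cast hl.ne'
  have hzz : (starRingEnd ℂ) z * z = (l : ℂ) ^ 2 := by
    rw [← hz, mul_comm, Complex.mul_conj, Complex.normSq_eq_norm_sq]
    push_cast
    ring
  have hz0 : (starRingEnd ℂ) z ≠ 0 := by
    intro h
    rw [h, zero_mul] at hzz
    exact hl' (pow_eq_zero_iff (two_ne_zero)|>.1 hzz.symm)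
  apply mul_left_cancel₀ hz0
  rw [conj_mul_eq, h1, h2, Complex.exp_mul_I]
  rw [show (starRingEnd ℂ) z * (z * ((m : ℂ) / l) * (cos (t : ℂ) + sin (t : ℂ) * I)) =
    ((starRingEnd ℂ) z * z) * ((m : ℂ) / l) * (cos (t : ℂ) + sin (t : ℂ) * I) by ring, hzz]
  push_cast
  field_simp

theorem wnf (hA : AngStmt) : WnfStmt := by
  intro v hv hsum
  obtain ⟨hx0, hxp, hl0, hsp0, hdet0⟩ := hA v hv 0
  obtain ⟨hy0, hyp, hl1, hsp1, hdet1⟩ := hA v hv 1
  have hl3 : 0 < en v 3 := (hA v hv 3).2.2.1
  rw [show (0 : Fin 4) + 1 = 1 from rfl, show (0 : Fin 4) + 3 = 3 from rfl] at hsp0 hdet0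
  rw [show (1 : Fin 4) + 1 = 2 from rfl, show (1 : Fin 4) + 3 = 0 from rfl] at hsp1 hdet1
  have hn : ‖v 1 - v 0‖ = en v 0 := rfl
  generalize an v 0 = x at *
  generalize an v 1 = y at *
  generalize en v 0 = l at *
  generalize en v 1 = l1 at *
  generalize en v 3 = l3 at *
  have hg0 : 0 < x + y - Real.pi := by linarith
  have hgp : x + y - Real.pi < Real.pi := by linarith
  have hsg : 0 < Real.sin (x + y - Real.pi) := Real.sin_pos_of_pos_of_lt_pi hg0 hgp
  have hsx : 0 < Real.sin x := Real.sin_pos_of_pos_of_lt_pi hx0 hxp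
  have hsy : 0 < Real.sin y := Real.sin_pos_of_pos_of_lt_pi hy0 hyp
  have hp0 : 0 < l * Real.sin y / Real.sin (x + y - Real.pi) := by positivity
  have hp1 : 0 < l * Real.sin x / Real.sin (x + y - Real.pi) := by positivity
  refine ⟨x + y - Real.pi, l * Real.sin y / Real.sin (x + y - Real.pi),
    l * Real.sin x / Real.sin (x + y - Real.pi),
    l * Real.sin y / Real.sin (x + y - Real.pi) + l3,
    l * Real.sin x / Real.sin (x + y - Real.pi) + l1, rfl, rfl, rfl, hg0, hgp, hp0, hp1,
    by linarith, by linarith, ?_⟩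
  have hl' : (l : ℂ) ≠ 0 := by exact_mod_cast hl0.ne'
  -- the vectors
  have h3 : v 3 - v 0 = (v 1 - v 0) * ((l3 : ℂ) / l) * exp (x * I) :=
    vec_eq _ _ l l3 x hl0 hn hsp0 hdet0
  have hn' : ‖v 0 - v 1‖ = l := by rw [norm_sub_rev]; exact hn
  have hspc : sp (v 0 - v 1) (v 2 - v 1) = l * l1 * Real.cos (-y) := by
    rw [Real.cos_neg, show l * l1 = l1 * l by ring, ← hsp1]
    simp only [sp]; ring
  have hdetc : det (v 0 - v 1) (v 2 - v 1) = l * l1 * Real.sin (-y) := by
    rw [Real.sin_neg, show l * l1 * -Real.sin y = - (l1 * l * Real.sin y) by ring, ← hdet1]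
    simp only [det]; ring
  have h2 : v 2 - v 1 = (v 0 - v 1) * ((l1 : ℂ) / l) * exp ((-y : ℝ) * I) :=
    vec_eq _ _ l l1 (-y) hl0 hn' hspc hdetc
  -- the exponentials
  have hX : exp (x * I) * exp (-(x * I)) = 1 := by rw [← Complex.exp_add]; simp
  have hY : exp (y * I) * exp (-(y * I)) = 1 := by rw [← Complex.exp_add]; simp
  have hab : exp (((x + y - Real.pi) / 2 : ℝ) * I) * exp (-(((x + y - Real.pi) / 2 : ℝ) * I)) = 1 := by
    rw [← Complex.exp_add]; simp
  have haa : exp (((x + y - Real.pi) / 2 : ℝ) * I) ^ 2 = - (exp (x * I) * exp (y * I)) := by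
    rw [← Complex.exp_nat_mul, ← Complex.exp_add]
    have : ((2 : ℕ) : ℂ) * ((((x + y - Real.pi) / 2 : ℝ) : ℂ) * I) =
        (x * I + y * I) + -(Real.pi * I) := by push_cast; ring
    rw [this, Complex.exp_add _ (-(Real.pi * I)), Complex.exp_neg (Real.pi * I), Complex.exp_pi_mul_I]
    norm_num
  have hsinx : ((Real.sin x : ℝ) : ℂ) * (2 * I) = exp (x * I) - exp (-(x * I)) := by
    rw [Complex.ofReal_sin, Complex.sin]
    rw [show -(x : ℂ) * I = -(x * I) by ring]
    linear_combination (exp (-(x * I)) - exp (x * I)) * Complex.I_sq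
  have hsiny : ((Real.sin y : ℝ) : ℂ) * (2 * I) = exp (y * I) - exp (-(y * I)) := by
    rw [Complex.ofReal_sin, Complex.sin]
    rw [show -(y : ℂ) * I = -(y * I) by ring]
    linear_combination (exp (-(y * I)) - exp (y * I)) * Complex.I_sq
  have hsing : ((Real.sin (x + y - Real.pi) : ℝ) : ℂ) * (2 * I) =
      exp (-(x * I)) * exp (-(y * I)) - exp (x * I) * exp (y * I) := by
    rw [Real.sin_sub_pi, Complex.ofReal_neg, Complex.ofReal_sin, Complex.sin]
    rw [show -((x + y : ℝ) : ℂ) * I = -(x * I) + -(y * I) by push_cast; ring,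
      show ((x + y : ℝ) : ℂ) * I = (x * I) + (y * I) by push_cast; ring, Complex.exp_add,
      Complex.exp_add]
    linear_combination (exp (x * I) * exp (y * I) - exp (-(x * I)) * exp (-(y * I))) * Complex.I_sq
  rw [show exp (((-y : ℝ) : ℂ) * I) = exp (-(y * I)) by
    rw [Complex.ofReal_neg, neg_mul]] at h2
  have hsg' : ((Real.sin (x + y - Real.pi) : ℝ) : ℂ) ≠ 0 := by exact_mod_cast hsg.ne'
  have hI2 : (2 * I : ℂ) ≠ 0 := by simp
  have hX0 : exp (x * I) ≠ 0 := Complex.exp_ne_zero _
  have hY0 : exp (y * I) ≠ 0 := Complex.exp_ne_zero _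
  have ha0 : exp (((x + y - Real.pi) / 2 : ℝ) * I) ≠ 0 := Complex.exp_ne_zero _
  have hna : ‖exp (-(((x + y - Real.pi) / 2 : ℝ) * I))‖ = 1 := by
    rw [show -((((x + y - Real.pi) / 2 : ℝ) : ℂ) * I) = ((-((x + y - Real.pi) / 2) : ℝ) : ℂ) * I by
      push_cast; ring]
    exact Complex.norm_exp_ofReal_mul_I _
  have hnx : ‖exp ((x : ℂ) * I)‖ = 1 := Complex.norm_exp_ofReal_mul_I _
  refine ⟨(v 1 - v 0) / l * exp (x * I) * exp (-(((x + y - Real.pi) / 2 : ℝ) * I)),
    v 0 - (v 1 - v 0) / l * exp (x * I) * exp (-(((x + y - Real.pi) / 2 : ℝ) * I)) *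
      ((l * Real.sin y / Real.sin (x + y - Real.pi) : ℝ) *
        exp (((x + y - Real.pi) / 2 : ℝ) * I)), ?_, ?_⟩
  · rw [norm_mul, norm_mul, norm_div, hn, hna, hnx, Complex.norm_real, Real.norm_eq_abs,
      abs_of_pos hl0]
    field_simp
  · unfold wq
    generalize exp (-(((x + y - Real.pi) / 2 : ℝ) * I)) = b at *
    generalize exp (((x + y - Real.pi) / 2 : ℝ) * I) = a at *
    generalize exp (-(x * I)) = X' at *
    generalize exp (x * I) = X at *
    generalize exp (-(y * I)) = Y' at *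
    generalize exp (y * I) = Y at *
    have hkey : ((Real.sin x : ℝ) : ℂ) * b - ((Real.sin y : ℝ) : ℂ) * a =
        ((Real.sin (x + y - Real.pi) : ℝ) : ℂ) * a * X' := by
      apply mul_left_cancel₀ hI2
      apply mul_left_cancel₀ ha0
      generalize ((Real.sin x : ℝ) : ℂ) = sx at *
      generalize ((Real.sin y : ℝ) : ℂ) = sy at *
      generalize ((Real.sin (x + y - Real.pi) : ℝ) : ℂ) = sg at *
      have e1 : a * (2 * I * (sx * b - sy * a)) = (sx * (2 * I)) * (a * b) - (sy * (2 * I)) * a ^ 2 := by ring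
      have e2 : a * (2 * I * (sg * a * X')) = (sg * (2 * I)) * a ^ 2 * X' := by ring
      rw [e1, e2, hab, haa, hsinx, hsiny, hsing]
      linear_combination (-X + X') * hY + (X' * Y * Y' - X * Y ^ 2) * hX
    have h10 : (((l * Real.sin x / Real.sin (x + y - Real.pi) : ℝ)) : ℂ) * b -
        ((l * Real.sin y / Real.sin (x + y - Real.pi) : ℝ) : ℂ) * a = l * a * X' := by
      rw [Complex.ofReal_div, Complex.ofReal_div, Complex.ofReal_mul, Complex.ofReal_mul]
      have e : (l : ℂ) * ((Real.sin x : ℝ) : ℂ) / ((Real.sin (x + y - Real.pi) : ℝ) : ℂ) * b -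
          (l : ℂ) * ((Real.sin y : ℝ) : ℂ) / ((Real.sin (x + y - Real.pi) : ℝ) : ℂ) * a =
          l * (((Real.sin x : ℝ) : ℂ) * b - ((Real.sin y : ℝ) : ℂ) * a) /
            ((Real.sin (x + y - Real.pi) : ℝ) : ℂ) := by ring
      rw [e, hkey]
      field_simp
    generalize l * Real.sin x / Real.sin (x + y - Real.pi) = p1 at *
    generalize l * Real.sin y / Real.sin (x + y - Real.pi) = p0 at *
    have hba : b = - (Y' * X' * a) := by
      apply mul_left_cancel₀ ha0
      linear_combination hab + Y' * X' * haa - (Y * Y') * hX - hY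
    have hlX : (v 1 - v 0) / (l : ℂ) * X * b * ((p1 : ℂ) * b - (p0 : ℂ) * a) = v 1 - v 0 := by
      rw [h10]
      field_simp
      linear_combination (v 1 - v 0) * X' * X * hab + (v 1 - v 0) * hX
    intro i
    fin_cases i
    · simp
    · simp only [Fin.mk_one, Matrix.cons_val_one, Matrix.cons_val_zero]
      linear_combination -hlX
    · simp only [Fin.reduceFinMk, Matrix.cons_val]
      push_cast
      have e2 : (v 1 - v 0) / (l : ℂ) * X * b * ((l1 : ℂ) * b) = v 2 - v 1 := by
        rw [h2]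
        field_simp
        have hbb : X * b * b = - Y' := by
          have : b * b = - (Y' * X') := by
            have h5 : b * b = - (Y' * X') * (a * b) := by
              nth_rewrite 1 [hba]
              ring
            rw [h5, hab, mul_one]
          linear_combination X * this - Y' * hX
        linear_combination (v 1 - v 0) * l1 * hbb
      linear_combination -hlX - e2
    · simp only [Fin.reduceFinMk, Matrix.cons_val]
      push_cast
      have e3 : (v 1 - v 0) / (l : ℂ) * X * b * ((l3 : ℂ) * a) = v 3 - v 0 := by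
        rw [h3]
        field_simp
        linear_combination (v 1 - v 0) * l3 * hab
      linear_combination - e3

end Pool.Agent.QUD.H36
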